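import Mathlib

/-!
# Projective schemes over a field
-/

set_option autoImplicit false

open AlgebraicGeometry CategoryTheory

namespace Pool.Agent.Lib.MP_43d240_ag.H45

/-- `P^n` over `k`: `Proj` of the polynomial ring in `n + 1` variables with its standard grading. -/
noncomputable def PSpace (n : ℕ) (k : Type) [Field k] : Scheme.{0} :=
  letI := MvPolynomial.gradedAlgebra (σ := Fin (n + 1)) (R := k)
  Proj (MvPolynomial.homogeneousSubmodule (Fin (n + 1)) k)

/-- the structure morphism `P^n ⟶ Spec k` -/
noncomputable def PSpace.str (n : ℕ) (k : Type) [Field k] :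
    PSpace n k ⟶ Spec (CommRingCat.of k) :=
  letI := MvPolynomial.gradedAlgebra (σ := Fin (n + 1)) (R := k)
  Proj.toSpecZero (MvPolynomial.homogeneousSubmodule (Fin (n + 1)) k) ≫
    Spec.map (CommRingCat.ofHom
      (algebraMap k (MvPolynomial.homogeneousSubmodule (Fin (n + 1)) k 0)))

/-- `X` is projective over `k`: there is a closed immersion over `k` into some `P^n`. -/
def IsProjectiveOver (k : Type) [Field k] (X : Scheme.{0}) (f : X ⟶ Spec (CommRingCat.of k)) :
    Prop :=
  ∃ (n : ℕ) (i : X ⟶ PSpace n k), IsClosedImmersion i ∧ i ≫ PSpace.str n k = f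

end Pool.Agent.Lib.MP_43d240_ag.H45
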