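import Pool.Agent.Lib.MP_43d240_ag.H21.ShellThm
import Pool.Agent.Lib.MP_43d240_ag.H45.Defs

/-!
# The model is projective over `k`: the closed immersion commutes with the structure morphisms
-/

set_option linter.all false
set_option autoImplicit false

namespace Pool.Agent.Lib.MP_43d240_ag.H45

open AlgebraicGeometry CategoryTheory HomogeneousIdeal HomogeneousLocalization
open Pool.Agent.Lib.MP_43d240_ag.FRZ Pool.Agent.Lib.MP_43d240_ag.H21 Pool.Agent.PI

section compat

universe u

variable {A B σ τ : Type u} [CommRing A] [SetLike σ A] [AddSubgroupClass σ A]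
  [CommRing B] [SetLike τ B] [AddSubgroupClass τ B]
  {𝒜 : ℕ → σ} {ℬ : ℕ → τ} [GradedRing 𝒜] [GradedRing ℬ]

set_option backward.isDefEq.respectTransparency false in
theorem map_toSpecZero {R : Type u} [CommRing R] (f : 𝒜 →+*ᵍ ℬ)
    (hf : HomogeneousIdeal.irrelevant ℬ ≤ HomogeneousIdeal.map f (HomogeneousIdeal.irrelevant 𝒜))
    (φ : R →+* 𝒜 0) (ψ : R →+* ℬ 0) (h : ∀ r, f (φ r : A) = (ψ r : B)) :
    Proj.map f hf ≫ Proj.toSpecZero 𝒜 ≫ Spec.map (CommRingCat.ofHom φ) =
      Proj.toSpecZero ℬ ≫ Spec.map (CommRingCat.ofHom ψ) := by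
  refine (Proj.mapAffineOpenCover f hf).openCover.hom_ext _ _ fun s => ?_
  have h1 : (Away.map f (s.2 : A)).comp ((fromZeroRingHom 𝒜 _).comp φ) =
      (fromZeroRingHom ℬ _).comp ψ := by
    have hle : Submonoid.powers (s.2 : A) ≤ Submonoid.comap f (Submonoid.powers (f (s.2 : A))) := by
      rintro _ ⟨n, rfl⟩; exact ⟨n, by simp⟩
    ext r
    change HomogeneousLocalization.val (HomogeneousLocalization.map f hle (HomogeneousLocalization.mk _)) = HomogeneousLocalization.val (HomogeneousLocalization.mk _)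
    rw [HomogeneousLocalization.map_mk, HomogeneousLocalization.val_mk, HomogeneousLocalization.val_mk]
    simp [h r]
  simp only [Scheme.AffineOpenCover.openCover_f, Proj.mapAffineOpenCover_f,
    Proj.awayι_comp_map_assoc f hf s.1.2 (s.2 : A) s.2.2, Proj.awayι_toSpecZero_assoc]
  rw [← Spec.map_comp, ← Spec.map_comp, ← Spec.map_comp, ← CommRingCat.ofHom_comp,
    ← CommRingCat.ofHom_comp, ← CommRingCat.ofHom_comp, h1]

end compat

/-- The output of SHELL with the projective embedding over `k`. -/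
def ShellStatement' : Prop :=
  ∀ (k K : Type) [Field k] [Field K] [Algebra k K] (M : ℕ) (y : Fin (M + 1) → K),
    (∀ i, y i ≠ 0) → ∀ I : Set (Fin (M + 1)), I.Nonempty → Covers k y I →
    (∀ i ∈ I, Algebra.Smooth k (Ch k y i)) →
    (∀ i ∈ I, ringKrullDim (Ch k y i) = (((3 : ℕ) : ℕ∞) : WithBot ℕ∞)) →
    (∀ i ∈ I, IsFractionRing (Ch k y i) K) →
    ∃ (X : Scheme.{0}) (_ : IsIntegral X) (p : X ⟶ Spec (CommRingCat.of k)),
      (IsModel k X p ∧ IsProjectiveOver k X p) ∧
      ∃ θ : X.functionField ≃+* K,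
        ∀ a : K, (∀ i ∈ I, ∃ (u : (Ch k y i)ˣ) (c : K), c ≠ 0 ∧ a = (u : Ch k y i) * c ^ 2) →
          UnitSq X (θ.symm a)

theorem emb (k : Type) {K : Type} [Field k] [Field K] [Algebra k K] {M : ℕ}
    (y : Fin (M + 1) → K) : IsProjectiveOver k (Proj (gr k y)) (H21.str k y) := by
  letI := MvPolynomial.gradedAlgebra (σ := Fin (M + 1)) (R := k)
  refine ⟨M, Proj.map (evG k y) (irrelevant_le_of_surjective _ (ev_surjective k y)),
    isClosedImmersion_map _ (ev_surjective k y) _, ?_⟩
  exact map_toSpecZero (evG k y) _ _ _ (fun r => (ev k y).commutes r)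

theorem shell' : ShellStatement' := by
  intro k K _ _ _ M y hy I hI hcov hsm hdim hfr
  have hint : IsIntegral (Proj (gr k y)) := isIntegral_PX hy
  have hcov' := iSup_basicOpen_of_covers hcov
  obtain ⟨θ, hθ⟩ := exists_theta_unitSq k y I hI hy hcov' hfr
  refine ⟨Proj (gr k y), hint, H21.str k y, ⟨?_, emb k y⟩, θ, hθ⟩
  exact {
    smooth := smooth_str k y I hy hcov' hsm
    proper := (inferInstance : IsProper (strX k y))
    proj := ⟨M, fun {_} => closed_clause k y⟩
    dim := krullDim_Proj k y I hI hy hcov' _ hdim }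

/-- GEO with the projective embedding over `k`. -/
def GeoStatement' : Prop :=
  ∀ (k : Type) [Field k] [IsAlgClosed k] [CharZero k] (f : Idx → MvPolynomial (Fin 4) k),
    (∀ i, (f i).IsHomogeneous 6) → GP f →
    ∃ (X : Scheme.{0}) (_ : IsIntegral X) (p : X ⟶ Spec (CommRingCat.of k)),
      (IsModel k X p ∧ IsProjectiveOver k X p) ∧
      ∃ (ψ : MvPolynomial (Fin 3) k →+* X.functionField) (r : Idx → X.functionField),
        Function.Injective ψ ∧
        (∀ j l, r (j, l) ^ 2 * ψ (deh (f (j, 0))) = ψ (deh (f (j, l)))) ∧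
        (∀ L : Subfield X.functionField, (∀ a, ψ a ∈ L) → (∀ i, r i ∈ L) → L = ⊤) ∧
        ∀ i, UnitSq X (ψ (deh (f i)))

theorem geo_of_model' (hS : ShellStatement') (hM : ModelStatement) : GeoStatement' := by
  intro k _ _ _ f hf hgp
  obtain ⟨K, _, _, M, y, hy, hsm, hdim, hfr, ψ, r, hψ, hr, hgen, husq⟩ := hM k f hf hgp
  obtain ⟨X, hX, p, hp, θ, hθ⟩ := hS k K M y hy Set.univ Set.univ_nonempty (covers_univ k y)
    (fun i _ => hsm i) (fun i _ => by rw [hdim i]; rfl) (fun i _ => hfr i)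
  refine ⟨X, hX, p, hp, θ.symm.toRingHom.comp ψ, fun i => θ.symm (r i), ?_, ?_, ?_, ?_⟩
  · exact θ.symm.injective.comp hψ
  · intro j l
    show θ.symm (r (j, l)) ^ 2 * θ.symm (ψ _) = θ.symm (ψ _)
    rw [← map_pow, ← map_mul, hr]
  · intro L h1 h2
    have h3 : L.comap (θ.symm : K →+* X.functionField) = ⊤ :=
      hgen _ (fun a => h1 a) (fun i => h2 i)
    rw [_root_.eq_top_iff]
    rintro z -
    have : θ z ∈ L.comap (θ.symm : K →+* X.functionField) := by rw [h3]; trivial
    rw [Subfield.mem_comap] at this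
    simpa using this
  · intro i
    exact hθ _ (fun j _ => husq i j)

theorem geo' (hM : ModelStatement) : GeoStatement' := geo_of_model' shell' hM

end Pool.Agent.Lib.MP_43d240_ag.H45
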