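import Pool.Agent.Lib.MP_43d240_ag.H44.Gen

/-!
# Forms in general position over every uncountable algebraically closed field of characteristic 0

`GenAt k`: the statement `GenStatement` for the given field `k`.
-/

set_option autoImplicit false

namespace Pool.Agent.Lib.MP_43d240_ag.H45

open MvPolynomial Pool.Agent.PI Pool.Agent.PI.F1 Pool.Agent.Lib.MP_43d240_ag.H44
open scoped Cardinal

/-- 24 forms in general position over `k`, with a valuation ring `V` of `k`; the four forms of
block `j` reduce to `sZ j`. -/
def GenAt (k : Type) [Field k] : Prop :=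
  ∃ (V : ValuationSubring k)
    (_ : IsAlgClosed (IsLocalRing.ResidueField V)) (_ : CharZero (IsLocalRing.ResidueField V))
    (F : Idx → MvPolynomial (Fin 4) V),
    (∀ i, (F i).IsHomogeneous 6) ∧
    GP (fun i => MvPolynomial.map V.subtype (F i)) ∧
    ∀ i : Idx, MvPolynomial.map (IsLocalRing.residue V) (F i) =
      MvPolynomial.map (Int.castRingHom _) (sZ i.1)

theorem genAt_GK (κ : Type) [Field κ] [CharZero κ] : GenAt (GK κ (Idx × Fin 4)) := by
  classical
  obtain ⟨V, φ, m, hφ, hm, hres⟩ := exists_place κ (Idx × Fin 4)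
  let k := GK κ (Idx × Fin 4)
  haveI hac : IsAlgClosed (IsLocalRing.ResidueField V) := isAlgClosed_residueField V
  haveI hc0 : CharZero (IsLocalRing.ResidueField V) :=
    charZero_of_injective_ringHom (f := (IsLocalRing.residue V).comp φ) (RingHom.injective _)
  let s : Idx → MvPolynomial (Fin 4) κ := fun i => map (Int.castRingHom κ) (sZ i.1)
  let t : Idx → Fin 4 → k := fun i l => tt κ (Idx × Fin 4) (i, l)
  let F : Idx → MvPolynomial (Fin 4) V := fun i => map φ (s i) + ∑ l, C (m (i, l)) * X l ^ 6
  have hFk : (fun i => map V.subtype (F i)) = gform (fun _ => 6) s t := by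
    funext i
    change map V.subtype (map φ (s i) + ∑ l, C (m (i, l)) * X l ^ 6) = _
    rw [gform, map_add, map_sum]
    congr 1
    · rw [MvPolynomial.map_map]
      have h1 : V.subtype.comp φ = algebraMap κ k := RingHom.ext hφ
      rw [h1]
    · refine Finset.sum_congr rfl fun l _ => ?_
      rw [map_mul, map_pow, map_X, map_C]
      congr 2
      exact hm (i, l)
  refine ⟨V, hac, hc0, F, ?_, ?_, ?_⟩
  · intro i
    refine IsHomogeneous.add (((sZ_hom i.1).map _).map _) (IsHomogeneous.sum _ _ _ fun l _ => ?_)
    have h1 := (isHomogeneous_C (Fin 4) (m (i, l))).mul ((isHomogeneous_X V l).pow 6)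
    simpa using h1
  · rw [hFk]
    intro P hP
    refine gform_gp (fun _ => 6) s t ?_ P hP
    intro g
    obtain ⟨D, hD⟩ := exists_derivation κ (Idx × Fin 4) (fun x => g x.1 x.2)
    exact ⟨D, fun i l => hD (i, l)⟩
  · intro i
    change map (IsLocalRing.residue V) (map φ (s i) + ∑ l, C (m (i, l)) * X l ^ 6) = _
    rw [map_add, map_sum]
    have h0 : ∑ l, map (IsLocalRing.residue V) (C (m (i, l)) * X l ^ 6) = 0 := by
      refine Finset.sum_eq_zero fun l _ => ?_
      rw [map_mul, map_C, hres, C_0, zero_mul]
    rw [h0, add_zero, MvPolynomial.map_map]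
    change map _ (map (Int.castRingHom κ) (sZ i.1)) = _
    rw [MvPolynomial.map_map]
    have h1 : ((IsLocalRing.residue V).comp φ).comp (Int.castRingHom κ) =
      Int.castRingHom (IsLocalRing.ResidueField V) := RingHom.ext_int _ _
    rw [h1]

theorem eval_map_hom {k k' : Type} [Field k] [Field k'] (e : k →+* k') (P : Fin 4 → k)
    (g : MvPolynomial (Fin 4) k) : eval (fun l => e (P l)) (map e g) = e (eval P g) := by
  induction g using MvPolynomial.induction_on with
  | C a => simp
  | add p q hp hq => rw [map_add, map_add, map_add, map_add, hp, hq]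
  | mul_X p i hp => rw [map_mul, map_mul, map_mul, map_mul, hp, map_X, eval_X, eval_X]

/-- linear independence along an injection of the index set and a field isomorphism -/
theorem linInd_equiv {k k' ι ι' : Type} [Field k] [Field k'] (e : k ≃+* k')
    (v : ι → Fin 4 → k) (v' : ι' → Fin 4 → k') (c : ι' → ι) (hc : Function.Injective c)
    (h : ∀ i l, v' i l = e (v (c i) l)) (hv : LinearIndependent k v) :
    LinearIndependent k' v' := by
  have h4 : LinearIndependent k (v ∘ c) := hv.comp c hc
  rw [linearIndependent_iff'] at h4 ⊢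
  intro s g hg i hi
  have h5 := h4 s (fun i => e.symm (g i)) ?_ i hi
  · exact (map_eq_zero_iff _ e.symm.injective).1 h5
  · funext l
    have h6 := congrFun hg l
    rw [Finset.sum_apply] at h6 ⊢
    apply e.injective
    rw [map_sum, Pi.zero_apply, map_zero]
    rw [Pi.zero_apply] at h6
    rw [← h6]
    refine Finset.sum_congr rfl fun j _ => ?_
    rw [Pi.smul_apply, Pi.smul_apply, smul_eq_mul, smul_eq_mul, map_mul,
      RingEquiv.apply_symm_apply, h j l]
    rfl

/-- general position is preserved by field isomorphisms -/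
theorem gp_equiv {k k' ι : Type} [Field k] [Field k'] (e : k ≃+* k')
    (f : ι → MvPolynomial (Fin 4) k) (hf : GP f) :
    GP (fun i => map e.toRingHom (f i)) := by
  intro P hP
  obtain ⟨P', hPe⟩ : ∃ P' : Fin 4 → k, P = fun l => e.toRingHom (P' l) :=
    ⟨fun l => e.symm (P l), by funext l; exact (e.apply_symm_apply _).symm⟩
  subst hPe
  have hne : P' ≠ 0 := by
    intro h
    apply hP
    rw [h]
    funext l
    exact map_zero _
  have h2 : ∀ i : ι, eval (fun l => e.toRingHom (P' l)) (map e.toRingHom (f i)) = 0 →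
      eval P' (f i) = 0 := by
    intro i h3
    rw [eval_map_hom] at h3
    exact (map_eq_zero_iff _ e.injective).1 h3
  refine linInd_equiv e _ _ (fun i => ⟨i.1, h2 i.1 i.2⟩) ?_ ?_ (hf P' hne)
  · intro i j hij
    exact Subtype.ext (Subtype.mk.inj hij)
  · intro i l
    dsimp only
    rw [pderiv_map, eval_map_hom]
    rfl

theorem genAt_equiv {k k' : Type} [Field k] [Field k'] (e : k ≃+* k') (h : GenAt k) :
    GenAt k' := by
  obtain ⟨V, hac, hc0, F, hF, hGP, hred⟩ := h
  let V' : ValuationSubring k' := V.comap (e.symm : k' →+* k)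
  have hmem : ∀ a : k, a ∈ V → e a ∈ V' := by
    intro a ha
    change e.symm (e a) ∈ V
    rwa [RingEquiv.symm_apply_apply]
  let θ : V ≃+* V' :=
    { toFun := fun a => ⟨e a, hmem a a.2⟩
      invFun := fun b => ⟨e.symm b, b.2⟩
      left_inv := fun a => Subtype.ext (e.symm_apply_apply _)
      right_inv := fun b => Subtype.ext (e.apply_symm_apply _)
      map_mul' := fun a b => Subtype.ext (map_mul e _ _)
      map_add' := fun a b => Subtype.ext (map_add e _ _) }
  let ρ : IsLocalRing.ResidueField V ≃+* IsLocalRing.ResidueField V' :=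
    IsLocalRing.ResidueField.mapEquiv θ
  have hac' : IsAlgClosed (IsLocalRing.ResidueField V') := IsAlgClosed.of_ringEquiv _ _ ρ
  have hc0' : CharZero (IsLocalRing.ResidueField V') :=
    charZero_of_injective_ringHom (f := ρ.toRingHom) ρ.injective
  refine ⟨V', hac', hc0', fun i => map θ.toRingHom (F i), fun i => (hF i).map _, ?_, ?_⟩
  · have h1 : (fun i => map V'.subtype (map θ.toRingHom (F i))) =
        fun i => map e.toRingHom (map V.subtype (F i)) := by
      funext i
      rw [map_map, map_map]
      rfl
    rw [h1]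
    exact gp_equiv e _ hGP
  · intro i
    rw [map_map]
    have h1 : (IsLocalRing.residue V').comp θ.toRingHom =
        ρ.toRingHom.comp (IsLocalRing.residue V) := by
      ext a
      rfl
    rw [h1, ← map_map, hred i, map_map]
    have h2 : ρ.toRingHom.comp (Int.castRingHom _) = Int.castRingHom _ := RingHom.ext_int _ _
    rw [h2]

theorem equiv_GK (k σ : Type) [Field k] [IsAlgClosed k] [CharZero k] [Uncountable k] [Countable σ] :
    Nonempty (GK k σ ≃+* k) := by
  have h0 : ℵ₀ < #k := by rwa [Cardinal.aleph0_lt_mk_iff]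
  have hσ : #σ ≤ ℵ₀ := Cardinal.mk_le_aleph0
  have h1 : #(MvPolynomial σ k) ≤ #k :=
    (MvPolynomial.cardinalMk_le_max (σ := σ) (R := k)).trans
      (max_le (max_le le_rfl (hσ.trans h0.le)) h0.le)
  have h2 : #(FractionRing (MvPolynomial σ k)) ≤ #k :=
    (IsLocalization.cardinalMk_le (R := MvPolynomial σ k) (nonZeroDivisors _)).trans h1
  have h3 : #(GK k σ) ≤ #k :=
    (Algebra.IsAlgebraic.cardinalMk_le_max (FractionRing (MvPolynomial σ k)) (GK k σ)).trans
      (max_le h2 h0.le)
  have h4 : #k ≤ #(GK k σ) :=
    Cardinal.mk_le_of_injective (algebraMap k (GK k σ)).injective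
  have h5 : #(GK k σ) = #k := le_antisymm h3 h4
  exact IsAlgClosed.ringEquiv_of_equiv_of_charZero (by rw [h5]; exact h0) (Cardinal.eq.1 h5)

/-- GEN over every uncountable algebraically closed field of characteristic 0. -/
theorem genAt (k : Type) [Field k] [IsAlgClosed k] [CharZero k] [Uncountable k] : GenAt k := by
  obtain ⟨e⟩ := equiv_GK k (Idx × Fin 4)
  exact genAt_equiv e (genAt_GK k)

end Pool.Agent.Lib.MP_43d240_ag.H45
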